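import Mathlib

/-!
# Unions of cube boundaries with all side lengths
-/

namespace Pool.Agent.Results.MP_05d054_an.DimensionSum

open Filter Topology MeasureTheory

open scoped ENNReal NNReal

/-- The boundary of the unit cube `[0,1]^n`: the union of its `(n-1)`-dimensional faces. -/
def K (n : ℕ) : Set (EuclideanSpace ℝ (Fin n)) :=
  {x | (∀ i, 0 ≤ x i ∧ x i ≤ 1) ∧ ∃ i, x i = 0 ∨ x i = 1}

/-- The union of the cube boundaries `t K + f t`, `0 < t < 1`. -/
def G {n : ℕ} (f : ℝ → EuclideanSpace ℝ (Fin n)) : Set (EuclideanSpace ℝ (Fin n)) :=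
  {y | ∃ t ∈ Set.Ioo (0 : ℝ) 1, ∃ x ∈ K n, y = t • x + f t}

/-- The mesh cubes `∏ [z_i / m, (z_i + 1) / m]` which meet `S`. -/
def mesh {n : ℕ} (S : Set (EuclideanSpace ℝ (Fin n))) (m : ℕ) : Set (Fin n → ℤ) :=
  {z | ∃ x ∈ S, ∀ i, (z i : ℝ) / m ≤ x i ∧ x i ≤ ((z i : ℝ) + 1) / m}

/-- The upper box-counting dimension of a bounded set. -/
noncomputable def upperBoxDim {n : ℕ} (S : Set (EuclideanSpace ℝ (Fin n))) : EReal :=
  limsup (fun m : ℕ => ((Real.log ((mesh S m).ncard : ℝ) / Real.log m : ℝ) : EReal)) atTop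

/-! ### Hausdorff measure of products with a set of positive measure -/

/-- If `S` contains `{a} × Q` for all `a ∈ A`, where `Q` has positive measure, then
`μH[s + m] S = 0` implies `μH[s] A = 0`. -/
lemma section_null {m : ℕ} {s : ℝ} (hs : 0 ≤ s) {S : Set (Fin (m + 1) → ℝ)} {A : Set ℝ}
    {Q : Set (Fin m → ℝ)} (hQ : volume Q ≠ 0)
    (hS : ∀ a ∈ A, ∀ y ∈ Q, (Fin.cons a y : Fin (m + 1) → ℝ) ∈ S)
    (h : μH[s + m] S = 0) : μH[s] A = 0 := by
  rw [Measure.hausdorffMeasure_apply] at h ⊢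
  simp only [ENNReal.iSup_eq_zero] at h ⊢
  intro r hr
  have h1 := h r hr
  set M := ⨅ (t : ℕ → Set ℝ) (_ : A ⊆ ⋃ n, t n) (_ : ∀ n, Metric.ediam (t n) ≤ r),
    ∑' n, ⨆ _ : (t n).Nonempty, Metric.ediam (t n) ^ s with hM
  -- the key estimate
  have key : ∀ ε : ℝ≥0∞, 0 < ε → M * volume Q ≤ 2 ^ m * ε := by
    intro ε hε
    have h2 : ∃ t : ℕ → Set (Fin (m + 1) → ℝ), S ⊆ ⋃ n, t n ∧ (∀ n, Metric.ediam (t n) ≤ r) ∧
        ∑' n, ⨆ _ : (t n).Nonempty, Metric.ediam (t n) ^ (s + m) < ε := by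
      by_contra hcon
      push Not at hcon
      have : ε ≤ 0 := by
        rw [← h1]
        exact le_iInf fun t => le_iInf fun ht => le_iInf fun ht' => hcon t ht ht'
      exact absurd hε (not_lt.mpr this)
    obtain ⟨t, hcov, hdiam, hsum⟩ := h2
    -- projections
    set π : (Fin (m + 1) → ℝ) → (Fin m → ℝ) := Fin.tail with hπ
    have hpt : ∀ n, ∃ C : Set (Fin m → ℝ), MeasurableSet C ∧ π '' t n ⊆ C ∧
        (⨆ _ : (t n).Nonempty, Metric.ediam (t n) ^ s) * volume C
          ≤ 2 ^ m * ⨆ _ : (t n).Nonempty, Metric.ediam (t n) ^ (s + m) := by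
      intro n
      rcases Set.eq_empty_or_nonempty (t n) with hn | hn
      · refine ⟨∅, MeasurableSet.empty, by rw [hn, Set.image_empty], by simp⟩
      · obtain ⟨p, hp⟩ := hn
        by_cases htop : Metric.ediam (t n) = ⊤
        · refine ⟨Set.univ, MeasurableSet.univ, Set.subset_univ _, ?_⟩
          rcases eq_or_lt_of_le (add_nonneg hs (Nat.cast_nonneg m : (0 : ℝ) ≤ m)) with h0 | h0
          · have hm0 : m = 0 := by
              have : (m : ℝ) = 0 := by linarith [(Nat.cast_nonneg m : (0 : ℝ) ≤ m)]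
              exact_mod_cast this
            subst hm0
            simp only [Nat.cast_zero, add_zero, pow_zero, one_mul]
            apply mul_le_of_le_one_right bot_le
            rw [volume_pi, Measure.pi_univ]
            simp
          · have : (⨆ _ : (t n).Nonempty, Metric.ediam (t n) ^ (s + m)) = ⊤ := by
              rw [iSup_pos ⟨p, hp⟩, htop, ENNReal.top_rpow_of_pos h0]
            rw [this, ENNReal.mul_top (by positivity)]
            exact le_top
        · set δ := (Metric.ediam (t n)).toReal with hδ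
          have hδ' : Metric.ediam (t n) = ENNReal.ofReal δ := (ENNReal.ofReal_toReal htop).symm
          have hδ0 : 0 ≤ δ := ENNReal.toReal_nonneg
          refine ⟨Metric.closedBall (π p) δ, measurableSet_closedBall, ?_, ?_⟩
          · rintro _ ⟨x, hx, rfl⟩
            rw [Metric.mem_closedBall, dist_pi_le_iff hδ0]
            intro i
            have h3 : edist x p ≤ Metric.ediam (t n) := Metric.edist_le_ediam_of_mem hx hp
            rw [hδ', edist_dist, ENNReal.ofReal_le_ofReal_iff hδ0] at h3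
            exact (dist_le_pi_dist x p i.succ).trans h3
          · rw [iSup_pos ⟨p, hp⟩, iSup_pos ⟨p, hp⟩, Real.volume_pi_closedBall _ hδ0,
              Fintype.card_fin]
            have e1 : ENNReal.ofReal ((2 * δ) ^ m) = 2 ^ m * Metric.ediam (t n) ^ (m : ℝ) := by
              rw [hδ', ENNReal.rpow_natCast, mul_pow, ENNReal.ofReal_mul (by positivity),
                ENNReal.ofReal_pow hδ0, ENNReal.ofReal_pow (by norm_num)]
              norm_num
            rw [e1, ENNReal.rpow_add_of_nonneg _ _ hs (Nat.cast_nonneg m)]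
            apply le_of_eq
            ring
    choose C hCm hCsub hCle using hpt
    -- the section sums
    have hsec : ∀ y ∈ Q, M ≤ ∑' n, (C n).indicator
        (fun _ => ⨆ _ : (t n).Nonempty, Metric.ediam (t n) ^ s) y := by
      intro y hy
      set t' : ℕ → Set ℝ := fun n => {a | (Fin.cons a y : Fin (m + 1) → ℝ) ∈ t n} with ht'
      have hd' : ∀ n, Metric.ediam (t' n) ≤ Metric.ediam (t n) := by
        intro n
        apply Metric.ediam_le
        intro a ha a' ha'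
        have h3 : edist (Fin.cons a y : Fin (m + 1) → ℝ) (Fin.cons a' y) ≤ Metric.ediam (t n) :=
          Metric.edist_le_ediam_of_mem ha ha'
        refine le_trans ?_ h3
        have h4 := edist_le_pi_edist (Fin.cons a y : Fin (m + 1) → ℝ) (Fin.cons a' y) 0
        simpa using h4
      have h3 : M ≤ ∑' n, ⨆ _ : (t' n).Nonempty, Metric.ediam (t' n) ^ s := by
        rw [hM]
        refine iInf_le_of_le t' (iInf_le_of_le ?_ (iInf_le_of_le ?_ le_rfl))
        · intro a ha
          have h5 := hcov (hS a ha y hy)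
          rw [Set.mem_iUnion] at h5 ⊢
          exact h5
        · intro n
          exact (hd' n).trans (hdiam n)
      refine h3.trans (ENNReal.tsum_le_tsum fun n => ?_)
      apply iSup_le
      rintro ⟨a, ha⟩
      have hmem : y ∈ C n := hCsub n ⟨_, ha, by
        funext i
        simp [hπ]⟩
      rw [Set.indicator_of_mem hmem, iSup_pos ⟨_, ha⟩]
      exact ENNReal.rpow_le_rpow (hd' n) hs
    calc M * volume Q = ∫⁻ _ in Q, M := by rw [setLIntegral_const]
      _ ≤ ∫⁻ y in Q, ∑' n, (C n).indicator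
          (fun _ => ⨆ _ : (t n).Nonempty, Metric.ediam (t n) ^ s) y := by
          apply setLIntegral_mono
          · exact Measurable.tsum fun n => measurable_const.indicator (hCm n)
          · exact hsec
      _ ≤ ∫⁻ y, ∑' n, (C n).indicator
          (fun _ => ⨆ _ : (t n).Nonempty, Metric.ediam (t n) ^ s) y := setLIntegral_le_lintegral _ _
      _ = ∑' n, ∫⁻ y, (C n).indicator
          (fun _ => ⨆ _ : (t n).Nonempty, Metric.ediam (t n) ^ s) y := by
          apply lintegral_tsum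
          intro n
          exact (measurable_const.indicator (hCm n)).aemeasurable
      _ = ∑' n, (⨆ _ : (t n).Nonempty, Metric.ediam (t n) ^ s) * volume (C n) := by
          congr 1
          funext n
          rw [lintegral_indicator_const (hCm n)]
      _ ≤ ∑' n, 2 ^ m * ⨆ _ : (t n).Nonempty, Metric.ediam (t n) ^ (s + m) :=
          ENNReal.tsum_le_tsum hCle
      _ = 2 ^ m * ∑' n, ⨆ _ : (t n).Nonempty, Metric.ediam (t n) ^ (s + m) :=
          ENNReal.tsum_mul_left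
      _ ≤ 2 ^ m * ε := by gcongr
  -- conclusion
  have hzero : M * volume Q = 0 := by
    by_contra hne
    have hpos : 0 < M * volume Q := pos_iff_ne_zero.mpr hne
    obtain ⟨η, hη0, hη1⟩ := exists_between hpos
    have h2m : (2 : ℝ≥0∞) ^ m ≠ 0 := by positivity
    have h2t : (2 : ℝ≥0∞) ^ m ≠ ⊤ := ENNReal.pow_ne_top (by norm_num)
    have h3 := key (η / 2 ^ m) (ENNReal.div_pos hη0.ne' h2t)
    rw [ENNReal.mul_div_cancel h2m h2t] at h3
    exact absurd hη1 (not_lt.mpr h3)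
  rcases mul_eq_zero.mp hzero with h3 | h3
  · exact h3
  · exact absurd h3 hQ

/-! ### Difference sets -/

/-- Mesh intervals of the line meeting `A`. -/
def cells (A : Set ℝ) (m : ℕ) : Set ℤ := {z | ∃ a ∈ A, (z : ℝ) / m ≤ a ∧ a ≤ ((z : ℝ) + 1) / m}

/-- The difference set. -/
def diffs (U A : Set ℝ) : Set ℝ := {x | ∃ u ∈ U, ∃ a ∈ A, x = u - a}

lemma exists_cell (a : ℝ) {m : ℕ} (hm : 0 < m) :
    ∃ z : ℤ, (z : ℝ) / m ≤ a ∧ a ≤ ((z : ℝ) + 1) / m := by
  have hmr : (0 : ℝ) < m := by exact_mod_cast hm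
  refine ⟨⌊a * m⌋, ?_, ?_⟩
  · rw [div_le_iff₀ hmr]
    exact Int.floor_le _
  · rw [le_div_iff₀ hmr]
    exact (Int.lt_floor_add_one _).le

lemma volume_diffs_le {A : Set ℝ} {C t : ℝ} (ht0 : 0 ≤ t) (hC : 0 ≤ C) {m₀ : ℕ}
    (hfin : ∀ m, 0 < m → (cells A m).Finite)
    (hcount : ∀ m, m₀ ≤ m → ((cells A m).ncard : ℝ) ≤ C * (m : ℝ) ^ t) {d : ℝ} (hd : 0 < d)
    (hd1 : d ≤ 1) (hdm : d * m₀ ≤ 1) {U : Set ℝ} (hU : Metric.ediam U ≤ ENNReal.ofReal d) :
    volume (diffs U A) ≤ ENNReal.ofReal (C * 2 ^ t * 3 * d ^ (1 - t)) := by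
  rcases Set.eq_empty_or_nonempty U with hU0 | ⟨u₀, hu₀⟩
  · have : diffs U A = ∅ := by
      rw [hU0]; ext x; simp [diffs]
    rw [this, measure_empty]
    exact bot_le
  set m : ℕ := ⌈1 / d⌉₊ with hm
  have hm1 : 1 / d ≤ m := Nat.le_ceil _
  have hm2 : (m : ℝ) < 1 / d + 1 := Nat.ceil_lt_add_one (by positivity)
  have hmr : (0 : ℝ) < m := lt_of_lt_of_le (by positivity) hm1
  have hm0 : 0 < m := by exact_mod_cast hmr
  have hmm : m₀ ≤ m := by
    have : (m₀ : ℝ) ≤ m := by
      refine le_trans ?_ hm1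
      rw [le_div_iff₀ hd]
      linarith
    exact_mod_cast this
  have hm3 : (m : ℝ) ≤ 2 / d := by
    have : (1 : ℝ) ≤ 1 / d := by rw [le_div_iff₀ hd]; linarith
    have e : (2 : ℝ) / d = 1 / d + 1 / d := by ring
    linarith
  have hm4 : 1 / (m : ℝ) ≤ d := by
    rw [div_le_iff₀ hmr]
    rw [div_le_iff₀ hd] at hm1
    linarith
  have hUd : ∀ u ∈ U, |u - u₀| ≤ d := by
    intro u hu
    have h1 : edist u u₀ ≤ ENNReal.ofReal d := (Metric.edist_le_ediam_of_mem hu hu₀).trans hU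
    rw [edist_dist, ENNReal.ofReal_le_ofReal_iff hd.le, Real.dist_eq] at h1
    exact h1
  have hcov : diffs U A ⊆ ⋃ z ∈ (hfin m hm0).toFinset,
      Set.Icc (u₀ - d - ((z : ℝ) + 1) / m) (u₀ + d - (z : ℝ) / m) := by
    rintro x ⟨u, hu, a, ha, rfl⟩
    obtain ⟨z, hz1, hz2⟩ := exists_cell a hm0
    rw [Set.mem_iUnion₂]
    refine ⟨z, ?_, ?_, ?_⟩
    · rw [Set.Finite.mem_toFinset]
      exact ⟨a, ha, hz1, hz2⟩
    · have := abs_le.mp (hUd u hu)
      linarith [this.1]
    · have := abs_le.mp (hUd u hu)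
      linarith [this.2]
  calc volume (diffs U A) ≤ volume (⋃ z ∈ (hfin m hm0).toFinset,
        Set.Icc (u₀ - d - ((z : ℝ) + 1) / m) (u₀ + d - (z : ℝ) / m)) := measure_mono hcov
    _ ≤ ∑ z ∈ (hfin m hm0).toFinset,
        volume (Set.Icc (u₀ - d - ((z : ℝ) + 1) / m) (u₀ + d - (z : ℝ) / m)) :=
        measure_biUnion_finset_le _ _
    _ ≤ ∑ _z ∈ (hfin m hm0).toFinset, ENNReal.ofReal (3 * d) := by
        apply Finset.sum_le_sum
        intro z _
        rw [Real.volume_Icc]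
        apply ENNReal.ofReal_le_ofReal
        have : u₀ + d - (z : ℝ) / m - (u₀ - d - ((z : ℝ) + 1) / m) = 2 * d + 1 / m := by ring
        rw [this]
        linarith
    _ = ENNReal.ofReal ((cells A m).ncard * (3 * d)) := by
        rw [Finset.sum_const, nsmul_eq_mul, ← Set.ncard_eq_toFinset_card _ (hfin m hm0),
          ENNReal.ofReal_mul (Nat.cast_nonneg _), ENNReal.ofReal_natCast]
    _ ≤ ENNReal.ofReal (C * 2 ^ t * 3 * d ^ (1 - t)) := by
        apply ENNReal.ofReal_le_ofReal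
        have h1 := hcount m hmm
        have h2 : (m : ℝ) ^ t ≤ (2 / d) ^ t := Real.rpow_le_rpow hmr.le hm3 ht0
        have h3 : (2 / d) ^ t * d = 2 ^ t * d ^ (1 - t) := by
          rw [Real.div_rpow (by norm_num) hd.le, Real.rpow_sub hd, Real.rpow_one]
          ring
        calc ((cells A m).ncard : ℝ) * (3 * d) ≤ (C * (2 / d) ^ t) * (3 * d) := by
              apply mul_le_mul_of_nonneg_right _ (by positivity)
              exact h1.trans (mul_le_mul_of_nonneg_left h2 hC)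
          _ = C * 3 * ((2 / d) ^ t * d) := by ring
          _ = C * 2 ^ t * 3 * d ^ (1 - t) := by rw [h3]; ring

/-- If `μH[s] A = 0` and the mesh counts of `A` are `O(m ^ t)` with `s + t ≤ 1`, `t < 1`, then
`A - A` is Lebesgue null. -/
lemma diffs_null {A : Set ℝ} {C s t : ℝ} (ht0 : 0 ≤ t) (ht1 : t < 1) (hst : s + t ≤ 1)
    (hC : 0 ≤ C) {m₀ : ℕ} (hfin : ∀ m, 0 < m → (cells A m).Finite)
    (hcount : ∀ m, m₀ ≤ m → ((cells A m).ncard : ℝ) ≤ C * (m : ℝ) ^ t)
    (hA : μH[s] A = 0) : volume (diffs A A) = 0 := by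
  set c : ℝ := C * 2 ^ t * 3 with hc
  have hc0 : 0 ≤ c := by positivity
  set d₀ : ℝ := 1 / (m₀ + 1) with hd₀
  have hd₀0 : 0 < d₀ := by positivity
  have hd₀1 : d₀ ≤ 1 := by
    rw [hd₀, div_le_one (by positivity)]
    linarith [(Nat.cast_nonneg m₀ : (0 : ℝ) ≤ m₀)]
  have hd₀m : d₀ * m₀ ≤ 1 := by
    rw [hd₀, div_mul_eq_mul_div, div_le_one (by positivity)]
    linarith
  have hle : ∀ ε : ℝ≥0∞, 0 < ε → volume (diffs A A) ≤ ENNReal.ofReal c * ε := by
    intro ε hε
    rw [Measure.hausdorffMeasure_apply] at hA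
    simp only [ENNReal.iSup_eq_zero] at hA
    have h1 := hA (ENNReal.ofReal d₀) (ENNReal.ofReal_pos.mpr hd₀0)
    have h2 : ∃ t : ℕ → Set ℝ, A ⊆ ⋃ n, t n ∧ (∀ n, Metric.ediam (t n) ≤ ENNReal.ofReal d₀) ∧
        ∑' n, ⨆ _ : (t n).Nonempty, Metric.ediam (t n) ^ s < ε := by
      by_contra hcon
      push Not at hcon
      have : ε ≤ 0 := by
        rw [← h1]
        exact le_iInf fun t => le_iInf fun ht => le_iInf fun ht' => hcon t ht ht'
      exact absurd hε (not_lt.mpr this)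
    obtain ⟨T, hcov, hdiam, hsum⟩ := h2
    have hsub : diffs A A ⊆ ⋃ n, diffs (T n) A := by
      rintro x ⟨u, hu, a, ha, rfl⟩
      have h3 := hcov hu
      rw [Set.mem_iUnion] at h3 ⊢
      obtain ⟨n, hn⟩ := h3
      exact ⟨n, u, hn, a, ha, rfl⟩
    have hpt : ∀ n, volume (diffs (T n) A)
        ≤ ENNReal.ofReal c * ⨆ _ : (T n).Nonempty, Metric.ediam (T n) ^ s := by
      intro n
      rcases Set.eq_empty_or_nonempty (T n) with hn | hn
      · have : diffs (T n) A = ∅ := by rw [hn]; ext x; simp [diffs]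
        rw [this, measure_empty]
        exact bot_le
      · rw [iSup_pos hn]
        have htop : Metric.ediam (T n) ≠ ⊤ := ne_top_of_le_ne_top ENNReal.ofReal_ne_top (hdiam n)
        set δ := (Metric.ediam (T n)).toReal with hδ
        have hδ' : Metric.ediam (T n) = ENNReal.ofReal δ := (ENNReal.ofReal_toReal htop).symm
        have hδ0 : 0 ≤ δ := ENNReal.toReal_nonneg
        have hδ1 : δ ≤ d₀ := by
          have := hdiam n
          rwa [hδ', ENNReal.ofReal_le_ofReal_iff hd₀0.le] at this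
        rcases eq_or_lt_of_le hδ0 with h0 | hpos
        · -- zero diameter: the measure is zero
          have hz : volume (diffs (T n) A) ≤ 0 := by
            have hlim : Tendsto (fun d : ℝ => ENNReal.ofReal (c * d ^ (1 - t)))
                (𝓝[>] 0) (𝓝 (ENNReal.ofReal (c * 0))) := by
              apply ENNReal.tendsto_ofReal
              apply Tendsto.const_mul
              have h3 : Tendsto (fun d : ℝ => d ^ (1 - t)) (𝓝 0) (𝓝 (0 ^ (1 - t))) :=
                (Real.continuousAt_rpow_const _ _ (Or.inr (by linarith : (0 : ℝ) ≤ 1 - t))).tendsto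
              rw [Real.zero_rpow (by linarith : 1 - t ≠ 0)] at h3
              exact h3.mono_left nhdsWithin_le_nhds
            rw [mul_zero, ENNReal.ofReal_zero] at hlim
            apply ge_of_tendsto hlim
            have h4 : Set.Ioc (0 : ℝ) d₀ ∈ 𝓝[>] (0 : ℝ) := Ioc_mem_nhdsGT hd₀0
            filter_upwards [h4] with d hd
            apply volume_diffs_le ht0 hC hfin hcount hd.1 (hd.2.trans hd₀1)
            · exact (mul_le_mul_of_nonneg_right hd.2 (Nat.cast_nonneg _)).trans hd₀m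
            · rw [hδ', ← h0]
              simp
          exact hz.trans bot_le
        · have h3 := volume_diffs_le ht0 hC hfin hcount hpos (hδ1.trans hd₀1)
            ((mul_le_mul_of_nonneg_right hδ1 (Nat.cast_nonneg _)).trans hd₀m) hδ'.le (A := A)
          refine h3.trans ?_
          rw [hδ', ENNReal.ofReal_rpow_of_pos hpos, ← ENNReal.ofReal_mul hc0]
          apply ENNReal.ofReal_le_ofReal
          apply mul_le_mul_of_nonneg_left _ hc0
          exact Real.rpow_le_rpow_of_exponent_ge hpos (hδ1.trans hd₀1) (by linarith)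
    calc volume (diffs A A) ≤ volume (⋃ n, diffs (T n) A) := measure_mono hsub
      _ ≤ ∑' n, volume (diffs (T n) A) := measure_iUnion_le _
      _ ≤ ∑' n, ENNReal.ofReal c * ⨆ _ : (T n).Nonempty, Metric.ediam (T n) ^ s :=
          ENNReal.tsum_le_tsum hpt
      _ = ENNReal.ofReal c * ∑' n, ⨆ _ : (T n).Nonempty, Metric.ediam (T n) ^ s :=
          ENNReal.tsum_mul_left
      _ ≤ ENNReal.ofReal c * ε := by gcongr
  by_contra hne
  have hpos : 0 < volume (diffs A A) := pos_iff_ne_zero.mpr hne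
  obtain ⟨η, hη0, hη1⟩ := exists_between hpos
  have hc1 : ENNReal.ofReal (c + 1) ≠ 0 := by
    rw [ne_eq, ENNReal.ofReal_eq_zero]
    push Not
    linarith
  have h3 := hle (η / ENNReal.ofReal (c + 1)) (ENNReal.div_pos hη0.ne' ENNReal.ofReal_ne_top)
  have h4 : ENNReal.ofReal c * (η / ENNReal.ofReal (c + 1)) ≤ η := by
    calc ENNReal.ofReal c * (η / ENNReal.ofReal (c + 1))
        ≤ ENNReal.ofReal (c + 1) * (η / ENNReal.ofReal (c + 1)) := by
          gcongr
          linarith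
      _ = η := ENNReal.mul_div_cancel hc1 ENNReal.ofReal_ne_top
  exact absurd hη1 (not_lt.mpr (h3.trans h4))

/-! ### The packing -/

section packing

variable {m : ℕ} {f : ℝ → EuclideanSpace ℝ (Fin (m + 1))}

/-- The point with coordinates `y`. -/
noncomputable def pt {n : ℕ} (y : Fin n → ℝ) : EuclideanSpace ℝ (Fin n) := WithLp.toLp 2 y

@[simp] lemma pt_apply {n : ℕ} (y : Fin n → ℝ) (i : Fin n) : pt y i = y i := rfl

/-- The parameters `t ≥ 1/2` whose face contains the grid cube with index `z`. -/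
def T (f : ℝ → EuclideanSpace ℝ (Fin (m + 1))) (z : Fin m → ℤ) : Set ℝ :=
  {t | t ∈ Set.Ico (1 / 2 : ℝ) 1 ∧ ∀ i : Fin m, ⌈4 * f t i.succ⌉ = z i}

/-- The first coordinates of the faces. -/
def AA (f : ℝ → EuclideanSpace ℝ (Fin (m + 1))) (z : Fin m → ℤ) : Set ℝ :=
  {a | ∃ t ∈ T f z, a = f t 0 ∨ a = f t 0 + t}

/-- The grid cube. -/
def QQ (z : Fin m → ℤ) : Set (Fin m → ℝ) :=
  Set.Icc (fun i => (z i : ℝ) / 4) (fun i => ((z i : ℝ) + 1) / 4)

lemma exists_T : ∃ z : Fin m → ℤ, volume (T f z) ≠ 0 := by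
  by_contra hcon
  push Not at hcon
  have h1 : Set.Ico (1 / 2 : ℝ) 1 ⊆ ⋃ z : Fin m → ℤ, T f z := by
    intro t ht
    rw [Set.mem_iUnion]
    exact ⟨fun i => ⌈4 * f t i.succ⌉, ht, fun i => rfl⟩
  have h2 : volume (Set.Ico (1 / 2 : ℝ) 1) ≤ 0 :=
    (measure_mono h1).trans (measure_iUnion_null hcon).le
  rw [Real.volume_Ico] at h2
  norm_num at h2

lemma volume_QQ (z : Fin m → ℤ) : volume (QQ z) ≠ 0 := by
  rw [QQ, Real.volume_Icc_pi]
  apply Finset.prod_ne_zero_iff.mpr
  intro i _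
  rw [ne_eq, ENNReal.ofReal_eq_zero]
  push Not
  have : ((z i : ℝ) + 1) / 4 - (z i : ℝ) / 4 = 1 / 4 := by ring
  rw [this]
  norm_num

lemma mem_G (z : Fin m → ℤ) {a : ℝ} (ha : a ∈ AA f z) {y : Fin m → ℝ} (hy : y ∈ QQ z) :
    pt (Fin.cons a y : Fin (m + 1) → ℝ) ∈ G f := by
  obtain ⟨t, ⟨⟨ht1, ht2⟩, htz⟩, hat⟩ := ha
  have ht0 : 0 < t := by linarith
  refine ⟨t, ⟨ht0, ht2⟩, t⁻¹ • (pt (Fin.cons a y : Fin (m + 1) → ℝ) - f t), ?_, ?_⟩
  · have hc0 : (t⁻¹ • (pt (Fin.cons a y : Fin (m + 1) → ℝ) - f t)) 0 = t⁻¹ * (a - f t 0) := by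
      simp
    have hcs : ∀ i : Fin m, (t⁻¹ • (pt (Fin.cons a y : Fin (m + 1) → ℝ) - f t)) i.succ
        = t⁻¹ * (y i - f t i.succ) := by
      intro i; simp
    have h0 : t⁻¹ * (a - f t 0) = 0 ∨ t⁻¹ * (a - f t 0) = 1 := by
      rcases hat with rfl | rfl
      · left; simp
      · right; field_simp; ring
    constructor
    · intro i
      refine Fin.cases ?_ ?_ i
      · rw [hc0]
        rcases h0 with h0 | h0 <;> rw [h0] <;> norm_num
      · intro i
        rw [hcs]
        have h1 := hy.1 i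
        have h2 := hy.2 i
        simp only at h1 h2
        have h3 := Int.le_ceil (4 * f t i.succ)
        have h4 := Int.ceil_lt_add_one (4 * f t i.succ)
        rw [htz i] at h3 h4
        constructor
        · apply mul_nonneg (by positivity)
          linarith
        · rw [inv_mul_le_iff₀ ht0]
          linarith
    · exact ⟨0, by rw [hc0]; exact h0⟩
  · rw [smul_smul, mul_inv_cancel₀ ht0.ne', one_smul]
    abel

lemma T_subset (z : Fin m → ℤ) : T f z ⊆ diffs (AA f z) (AA f z) := by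
  intro t ht
  exact ⟨f t 0 + t, ⟨t, ht, Or.inr rfl⟩, f t 0, ⟨t, ht, Or.inl rfl⟩, by ring⟩

variable (hf : ∀ t ∈ Set.Ioo (0 : ℝ) 1, ∀ i, 0 ≤ f t i ∧ f t i ≤ 1)

include hf

lemma G_bounds {x : EuclideanSpace ℝ (Fin (m + 1))} (hx : x ∈ G f) (i : Fin (m + 1)) :
    0 ≤ x i ∧ x i ≤ 2 := by
  obtain ⟨t, ht, y, hy, rfl⟩ := hx
  have h1 := hf t ht i
  have h2 := hy.1 i
  have e1 : (t • y + f t) i = t * y i + f t i := by simp
  rw [e1]
  obtain ⟨ht0, ht1⟩ := ht
  constructor
  · nlinarith [h1.1, h2.1]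
  · nlinarith [h1.2, h2.2, h2.1]

lemma mesh_finite {M : ℕ} (hM : 0 < M) : (mesh (G f) M).Finite := by
  have hMr : (0 : ℝ) < M := by exact_mod_cast hM
  apply (Set.finite_Icc (fun _ => (-1 : ℤ)) (fun _ : Fin (m + 1) => (2 * M : ℤ))).subset
  rintro z ⟨x, hx, hz⟩
  constructor
  · intro i
    have h1 := (G_bounds hf hx i).1
    have h2 := (hz i).2
    rw [le_div_iff₀ hMr] at h2
    have h3 : (-1 : ℝ) ≤ z i := by nlinarith
    exact_mod_cast h3
  · intro i
    have h1 := (G_bounds hf hx i).2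
    have h2 := (hz i).1
    rw [div_le_iff₀ hMr] at h2
    have h3 : (z i : ℝ) ≤ 2 * M := by nlinarith
    exact_mod_cast h3

lemma AA_bounds {z : Fin m → ℤ} {a : ℝ} (ha : a ∈ AA f z) : 0 ≤ a ∧ a ≤ 2 := by
  obtain ⟨t, ⟨⟨ht1, ht2⟩, _⟩, hat⟩ := ha
  have h := hf t ⟨by linarith, ht2⟩ 0
  rcases hat with rfl | rfl
  · exact ⟨h.1, by linarith [h.2]⟩
  · exact ⟨by linarith [h.1], by linarith [h.2]⟩

lemma cells_finite (z : Fin m → ℤ) {M : ℕ} (hM : 0 < M) : (cells (AA f z) M).Finite := by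
  have hMr : (0 : ℝ) < M := by exact_mod_cast hM
  apply (Set.finite_Icc (-1 : ℤ) (2 * M : ℤ)).subset
  rintro w ⟨a, ha, h1, h2⟩
  have h3 := AA_bounds hf ha
  rw [div_le_iff₀ hMr] at h1
  rw [le_div_iff₀ hMr] at h2
  have h4 : (-1 : ℝ) ≤ w := by nlinarith [h3.1]
  have h5 : (w : ℝ) ≤ 2 * M := by nlinarith [h3.2]
  exact ⟨by exact_mod_cast h4, by exact_mod_cast h5⟩

omit hf in
/-- The number of integers in `[u, v]` is at least `v - u - 1`. -/
lemma card_Icc_ge (u v : ℝ) : v - u - 1 ≤ ((Finset.Icc ⌈u⌉ ⌊v⌋).card : ℝ) := by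
  rw [Int.card_Icc]
  have h1 : v - 1 < ⌊v⌋ := by linarith [Int.lt_floor_add_one v]
  have h2 : (⌈u⌉ : ℝ) < u + 1 := Int.ceil_lt_add_one u
  have h3 : ((⌊v⌋ + 1 - ⌈u⌉ : ℤ) : ℝ) ≤ ((⌊v⌋ + 1 - ⌈u⌉).toNat : ℝ) := by
    exact_mod_cast Int.self_le_toNat _
  push_cast at h3
  linarith

lemma mesh_ge (z : Fin m → ℤ) {M : ℕ} (hM : 8 ≤ M) :
    ((cells (AA f z) M).ncard : ℝ) * ((M : ℝ) / 8) ^ m ≤ ((mesh (G f) M).ncard : ℝ) := by
  have hM0 : 0 < M := by omega
  have hMr : (0 : ℝ) < M := by exact_mod_cast hM0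
  have hM8 : (8 : ℝ) ≤ M := by exact_mod_cast hM
  set I : Fin m → Finset ℤ := fun i =>
    Finset.Icc ⌈(M : ℝ) * ((z i : ℝ) / 4)⌉ ⌊(M : ℝ) * (((z i : ℝ) + 1) / 4)⌋ with hI
  have hIcard : ∀ i, (M : ℝ) / 8 ≤ ((I i).card : ℝ) := by
    intro i
    have := card_Icc_ge ((M : ℝ) * ((z i : ℝ) / 4)) ((M : ℝ) * (((z i : ℝ) + 1) / 4))
    have e : (M : ℝ) * (((z i : ℝ) + 1) / 4) - (M : ℝ) * ((z i : ℝ) / 4) - 1 = M / 4 - 1 := by ring
    rw [e] at this
    refine le_trans ?_ this
    linarith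
  have hmaps : ∀ p ∈ (cells (AA f z) M) ×ˢ ((Fintype.piFinset I : Finset (Fin m → ℤ)) :
      Set (Fin m → ℤ)), (Fin.cons p.1 p.2 : Fin (m + 1) → ℤ) ∈ mesh (G f) M := by
    rintro ⟨w₀, w⟩ ⟨⟨a, ha, h1, h2⟩, hw⟩
    simp only [Finset.mem_coe, Fintype.mem_piFinset] at hw
    have hy : (fun i => (w i : ℝ) / M) ∈ QQ z := by
      constructor
      · intro i
        have h3 := hw i
        rw [hI, Finset.mem_Icc, Int.ceil_le] at h3
        simp only
        rw [le_div_iff₀ hMr]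
        linarith [h3.1]
      · intro i
        have h3 := hw i
        rw [hI, Finset.mem_Icc, Int.le_floor] at h3
        simp only
        rw [div_le_iff₀ hMr]
        linarith [h3.2]
    refine ⟨_, mem_G z ha hy, ?_⟩
    intro i
    refine Fin.cases ?_ ?_ i
    · exact ⟨h1, h2⟩
    · intro i
      simp only [Fin.cons_succ, pt_apply]
      refine ⟨le_rfl, ?_⟩
      apply div_le_div_of_nonneg_right _ hMr.le
      linarith
  have hinj : Set.InjOn (fun p : ℤ × (Fin m → ℤ) => (Fin.cons p.1 p.2 : Fin (m + 1) → ℤ))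
      ((cells (AA f z) M) ×ˢ ((Fintype.piFinset I : Finset (Fin m → ℤ)) : Set (Fin m → ℤ))) := by
    rintro ⟨w₀, w⟩ _ ⟨v₀, v⟩ _ h
    have h' := Fin.cons_injective2 h
    exact Prod.ext h'.1 h'.2
  have h1 := Set.ncard_le_ncard_of_injOn _ hmaps hinj (mesh_finite hf hM0)
  rw [Set.ncard_prod, Set.ncard_coe_finset, Fintype.card_piFinset] at h1
  have h2 : ((M : ℝ) / 8) ^ m ≤ ((∏ i, (I i).card : ℕ) : ℝ) := by
    push_cast
    calc ((M : ℝ) / 8) ^ m = ∏ _i : Fin m, (M : ℝ) / 8 := by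
          rw [Finset.prod_const, Finset.card_univ, Fintype.card_fin]
      _ ≤ ∏ i, ((I i).card : ℝ) := Finset.prod_le_prod (fun i _ => by positivity)
          (fun i _ => hIcard i)
  calc ((cells (AA f z) M).ncard : ℝ) * ((M : ℝ) / 8) ^ m
      ≤ ((cells (AA f z) M).ncard : ℝ) * ((∏ i, (I i).card : ℕ) : ℝ) :=
        mul_le_mul_of_nonneg_left h2 (Nat.cast_nonneg _)
    _ ≤ ((mesh (G f) M).ncard : ℝ) := by exact_mod_cast h1

end packing

/-- The Hausdorff measure statement for `G` itself. -/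
lemma AA_null {m : ℕ} {f : ℝ → EuclideanSpace ℝ (Fin (m + 1))} (z : Fin m → ℤ) {s : ℝ≥0}
    (h : dimH (G f) < ((s + m : ℝ≥0) : ℝ≥0∞)) : μH[s] (AA f z) = 0 := by
  set S : Set (Fin (m + 1) → ℝ) := (EuclideanSpace.equiv (Fin (m + 1)) ℝ) '' G f with hS
  have h1 : dimH S = dimH (G f) :=
    (EuclideanSpace.equiv (Fin (m + 1)) ℝ).dimH_image (G f)
  rw [← h1] at h
  have h2 : μH[((s + m : ℝ≥0) : ℝ)] S = 0 := hausdorffMeasure_of_dimH_lt h
  apply section_null s.2 (volume_QQ z) (S := S) (m := m)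
  · intro a ha y hy
    exact ⟨_, mem_G z ha hy, rfl⟩
  · push_cast at h2
    exact h2

/-- **Main theorem.** For every `n ≥ 1` and every size cube packing `f`, the Hausdorff dimension
and the upper box dimension of `G` have sum at least `2 n - 1`. -/
theorem result (n : ℕ) (hn : 1 ≤ n) (f : ℝ → EuclideanSpace ℝ (Fin n))
    (hf : ∀ t ∈ Set.Ioo (0 : ℝ) 1, ∀ i, 0 ≤ f t i ∧ f t i ≤ 1) :
    ((2 * n - 1 : ℝ) : EReal) ≤ ((dimH (G f) : ℝ≥0∞) : EReal) + upperBoxDim (G f) := by
  obtain ⟨m, rfl⟩ : ∃ m, n = m + 1 := ⟨n - 1, by omega⟩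
  obtain ⟨z, hz⟩ := exists_T (f := f)
  have hTne : (T f z).Nonempty := by
    rw [Set.nonempty_iff_ne_empty]
    intro h
    rw [h, measure_empty] at hz
    exact hz rfl
  have hAne : (AA f z).Nonempty := by
    obtain ⟨t, ht⟩ := hTne
    exact ⟨f t 0, t, ht, Or.inl rfl⟩
  by_contra hcon
  push Not at hcon
  -- the Hausdorff dimension is at least m
  have hD : (m : ℝ≥0∞) ≤ dimH (G f) := by
    by_contra hlt
    push Not at hlt
    have h1 := AA_null (f := f) z (s := 0) (by simpa using hlt)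
    obtain ⟨a, ha⟩ := hAne
    have h2 : μH[((0 : ℝ≥0) : ℝ)] ({a} : Set ℝ) ≤ μH[((0 : ℝ≥0) : ℝ)] (AA f z) :=
      measure_mono (Set.singleton_subset_iff.mpr ha)
    rw [h1, NNReal.coe_zero, Measure.hausdorffMeasure_zero_singleton] at h2
    exact absurd h2 (by norm_num)
  -- counts
  have hcard1 : ∀ M, 8 ≤ M → 1 ≤ ((cells (AA f z) M).ncard : ℝ) := by
    intro M hM
    have hpos : 0 < (cells (AA f z) M).ncard := by
      rw [Set.ncard_pos (cells_finite hf z (by omega))]
      obtain ⟨a, ha⟩ := hAne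
      obtain ⟨w, hw1, hw2⟩ := exists_cell a (by omega : 0 < M)
      exact ⟨w, a, ha, hw1, hw2⟩
    exact_mod_cast hpos
  -- the upper box dimension is nonnegative
  have hU0 : (0 : EReal) ≤ upperBoxDim (G f) := by
    unfold upperBoxDim
    apply Filter.le_limsup_of_frequently_le
    · apply Filter.Eventually.frequently
      filter_upwards [eventually_ge_atTop 8] with M hM
      have h1 := mesh_ge hf z hM
      have h2 := hcard1 M hM
      have hM8 : (8 : ℝ) ≤ M := by exact_mod_cast hM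
      have h3 : (1 : ℝ) ≤ ((M : ℝ) / 8) ^ m := one_le_pow₀ (by linarith)
      have h4 : (1 : ℝ) ≤ ((mesh (G f) M).ncard : ℝ) := by nlinarith
      have h5 : 0 ≤ Real.log ((mesh (G f) M).ncard : ℝ) / Real.log M :=
        div_nonneg (Real.log_nonneg h4) (Real.log_nonneg (by linarith))
      exact_mod_cast h5
    · isBoundedDefault
  -- finite dimension
  have hDtop : dimH (G f) ≠ ⊤ := by
    intro htop
    rw [htop, EReal.coe_ennreal_top, EReal.top_add_of_ne_bot] at hcon
    · exact absurd hcon (by simp)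
    · intro hbot
      rw [hbot] at hU0
      simp at hU0
  set D : ℝ≥0 := (dimH (G f)).toNNReal with hDdef
  have hDeq : dimH (G f) = (D : ℝ≥0∞) := (ENNReal.coe_toNNReal hDtop).symm
  rw [hDeq] at hD hcon
  have hDm : (m : ℝ) ≤ D := by
    have : (m : ℝ≥0) ≤ D := by exact_mod_cast hD
    exact_mod_cast this
  -- a real number above the upper box dimension
  have hcon' : upperBoxDim (G f) < ((2 * m + 1 - D : ℝ) : EReal) := by
    have e1 : (((D : ℝ≥0∞)) : EReal) = ((D : ℝ) : EReal) := rfl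
    rw [e1] at hcon
    have h1 : upperBoxDim (G f) ≠ ⊤ := by
      intro h
      rw [h, EReal.add_top_of_ne_bot (EReal.coe_ne_bot _)] at hcon
      exact absurd hcon (by simp)
    have h2 : upperBoxDim (G f) ≠ ⊥ := by
      intro h
      rw [h] at hU0
      simp at hU0
    lift upperBoxDim (G f) to ℝ using ⟨h1, h2⟩ with U hU
    rw [← EReal.coe_add, EReal.coe_lt_coe_iff] at hcon
    rw [EReal.coe_lt_coe_iff]
    push_cast at hcon
    linarith
  obtain ⟨t, ht1, ht2⟩ := EReal.lt_iff_exists_real_btwn.mp hcon'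
  rw [EReal.coe_lt_coe_iff] at ht2
  -- the exponents
  set s' : ℝ := (D - m) + (2 * m + 1 - D - t) / 2 with hs'
  have hs'0 : 0 < s' := by rw [hs']; linarith
  set t' : ℝ := t - m with ht'
  have hst : s' + t' ≤ 1 := by rw [hs', ht']; linarith
  -- eventual count bound
  have hev : ∀ᶠ M : ℕ in atTop,
      ((Real.log ((mesh (G f) M).ncard : ℝ) / Real.log M : ℝ) : EReal) < (t : EReal) :=
    Filter.eventually_lt_of_limsup_lt ht1
  obtain ⟨M₀, hM₀⟩ := (hev.and (eventually_ge_atTop 8)).exists_forall_of_atTop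
  have hcount : ∀ M, M₀ ≤ M → ((cells (AA f z) M).ncard : ℝ) ≤ (8 : ℝ) ^ m * (M : ℝ) ^ t' := by
    intro M hM
    obtain ⟨h1, h8⟩ := hM₀ M hM
    rw [EReal.coe_lt_coe_iff] at h1
    have hM8 : (8 : ℝ) ≤ M := by exact_mod_cast h8
    have hMr : (0 : ℝ) < M := by linarith
    have hlog : 0 < Real.log M := Real.log_pos (by linarith)
    have h2 := mesh_ge hf z h8
    have h3 := hcard1 M h8
    have h4 : (0 : ℝ) < ((M : ℝ) / 8) ^ m := by positivity
    have h5 : (0 : ℝ) < ((mesh (G f) M).ncard : ℝ) := by nlinarith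
    rw [div_lt_iff₀ hlog] at h1
    have h6 : ((mesh (G f) M).ncard : ℝ) ≤ (M : ℝ) ^ t := by
      rw [← Real.log_le_log_iff h5 (by positivity), Real.log_rpow hMr]
      exact h1.le
    have h7 : ((cells (AA f z) M).ncard : ℝ) * ((M : ℝ) / 8) ^ m ≤ (M : ℝ) ^ t := h2.trans h6
    have h8' : (M : ℝ) ^ t = (8 : ℝ) ^ m * (M : ℝ) ^ t' * ((M : ℝ) / 8) ^ m := by
      rw [ht', Real.rpow_sub hMr, Real.rpow_natCast, div_pow]
      field_simp
    rw [h8'] at h7
    exact le_of_mul_le_mul_right h7 h4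
  -- t' is nonnegative
  have ht'0 : 0 ≤ t' := by
    by_contra hneg
    push Not at hneg
    have h1 : Tendsto (fun M : ℕ => (8 : ℝ) ^ m * (M : ℝ) ^ t') atTop (𝓝 ((8 : ℝ) ^ m * 0)) := by
      apply Tendsto.const_mul
      have h2 := (tendsto_rpow_neg_atTop (by linarith : 0 < -t')).comp
        (tendsto_natCast_atTop_atTop (R := ℝ))
      simpa [Function.comp_def] using h2
    rw [mul_zero] at h1
    obtain ⟨M, hM1, hM2⟩ := ((h1.eventually (gt_mem_nhds one_pos)).and
      (eventually_ge_atTop (max M₀ 8))).exists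
    have h3 := hcount M (by omega)
    have h4 := hcard1 M (by omega)
    linarith
  -- conclusion
  have hA : μH[s'] (AA f z) = 0 := by
    have h1 := AA_null (f := f) z (s := s'.toNNReal) (by
      rw [hDeq]
      have h2 : D < s'.toNNReal + m := by
        rw [← NNReal.coe_lt_coe]
        push_cast
        rw [Real.coe_toNNReal _ hs'0.le]
        rw [hs']
        linarith
      exact_mod_cast h2)
    rwa [Real.coe_toNNReal _ hs'0.le] at h1
  have hnull := diffs_null ht'0 (by linarith) hst (by positivity : (0 : ℝ) ≤ (8 : ℝ) ^ m)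
    (fun M hM => cells_finite hf z hM) hcount hA
  exact hz (measure_mono_null (T_subset z) hnull)

end Pool.Agent.Results.MP_05d054_an.DimensionSum
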